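import Pool.Agent.Q291.MM.Prob

/-!
Stable multi-matchings of the Poisson process: degree-one vertices need not prevent percolation.
-/

namespace Pool.Agent.Results.MP_bae357_pr.HeavyTailPercolates

open MeasureTheory Set Q291.MM

/-- a heavy tailed degree distribution on `{2, 3, …}` -/
noncomputable def heavy (d : ℕ) : Measure ℕ :=
  Measure.sum fun j : ℕ => ENNReal.ofReal (1 / 4 * (3 / 4) ^ j) • Measure.dirac (Mk d j + 2)

lemma heavy_prob (d : ℕ) : IsProbabilityMeasure (heavy d) := by
  constructor
  unfold heavy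
  rw [Measure.sum_apply _ MeasurableSet.univ]
  simp only [Measure.smul_apply, measure_univ, smul_eq_mul, mul_one]
  rw [← ENNReal.ofReal_tsum_of_nonneg (fun j => by positivity)
    ((summable_geometric_of_lt_one (by norm_num) (by norm_num)).mul_left _), tsum_mul_left,
    tsum_geometric_of_lt_one (by norm_num) (by norm_num)]
  norm_num

lemma heavy_two (d : ℕ) : heavy d {n | n < 2} = 0 := by
  unfold heavy
  rw [Measure.sum_apply _ (by measurability), ENNReal.tsum_eq_zero]
  intro j
  rw [Measure.smul_apply, Measure.dirac_apply' _ (by measurability), Set.indicator_of_notMem]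
  · simp
  · show ¬ Mk d j + 2 < 2
    omega

lemma heavy_tail (d k : ℕ) : ENNReal.ofReal (1 / 4 * (3 / 4) ^ k) ≤ heavy d (Ici (Mk d k)) := by
  unfold heavy
  rw [Measure.sum_apply _ measurableSet_Ici]
  refine le_trans ?_ (ENNReal.le_tsum k)
  rw [Measure.smul_apply, Measure.dirac_apply' _ measurableSet_Ici, Set.indicator_of_mem]
  · simp
  · show Mk d k ≤ Mk d k + 2
    omega

/-- In every dimension `d ≥ 1` there is a degree distribution `ν` on `{2, 3, …}` such that for
every `p < 1` the stable multi-matching with degree distribution `p δ₁ + (1 - p) ν` has an infinite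
component almost surely. -/
theorem result (d : ℕ) (hd : 1 ≤ d) :
    ∃ ν : Measure ℕ, IsProbabilityMeasure ν ∧ ν {n | n < 2} = 0 ∧
      ∀ p : ℝ, 0 ≤ p → p < 1 →
        ∀ (Ω : Type) [MeasurableSpace Ω] (P : Measure Ω) [IsProbabilityMeasure P]
          (Q : Ω → Set (EuclideanSpace ℝ (Fin d))) (D : Ω → EuclideanSpace ℝ (Fin d) → ℕ),
          IsMarkedPoisson P (ENNReal.ofReal p • Measure.dirac 1 + ENNReal.ofReal (1 - p) • ν)
            Q D →
          ∀ᵐ ω ∂P, (∃ G : SimpleGraph (Q ω), IsStable (fun x : Q ω => D ω x) G) ∧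
            ∀ G : SimpleGraph (Q ω), IsStable (fun x : Q ω => D ω x) G →
              HasInfiniteComponent G := by
  have hprob := heavy_prob d
  refine ⟨heavy d, hprob, heavy_two d, ?_⟩
  intro p hp0 hp1 Ω _ P _ Q D h
  obtain ⟨μ, hμ⟩ : ∃ μ : Measure ℕ,
      μ = ENNReal.ofReal p • Measure.dirac 1 + ENNReal.ofReal (1 - p) • heavy d := ⟨_, rfl⟩
  rw [← hμ] at h
  have hμprob : IsProbabilityMeasure μ := by
    constructor
    rw [hμ, Measure.add_apply, Measure.smul_apply, Measure.smul_apply, measure_univ,
      measure_univ, smul_eq_mul, smul_eq_mul, mul_one, mul_one,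
      ← ENNReal.ofReal_add hp0 (by linarith)]
    simp
  apply percolates hd h (c := (1 - p) * (1 / 4)) (by nlinarith)
  intro k
  have h1 : ENNReal.ofReal ((1 - p) * (1 / 4) * (3 / 4) ^ k) ≤ μ (Ici (Mk d k)) := by
    rw [hμ, Measure.add_apply, Measure.smul_apply, Measure.smul_apply, smul_eq_mul, smul_eq_mul]
    refine le_trans ?_ le_add_self
    rw [mul_assoc, ENNReal.ofReal_mul (by linarith)]
    gcongr
    exact heavy_tail d k
  rw [← ENNReal.ofReal_le_iff_le_toReal (measure_ne_top _ _)]
  exact h1

end Pool.Agent.Results.MP_bae357_pr.HeavyTailPercolates
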